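import Mathlib

/-! Covering entropy equals the compatible measure bound (helper135). -/

namespace Pool.Agent.Results.MP_87c4bd_co.EntropyEquality

open MeasureTheory Filter Topology
open scoped ENNReal

universe u

section Defs

variable {Ω : Type u} [MeasurableSpace Ω]

/-- `-log t` as an element of `[0,∞]`, for `t ∈ [0,1]`; `-log 0 = ∞`. -/
noncomputable def nlog (t : ℝ≥0∞) : ℝ≥0∞ := (-(ENNReal.log t)).toENNReal

/-- `φ_π(a) = ∫ -log a dπ` for `a : Ω → [0,1]`. -/
noncomputable def phi (π : Measure Ω) (a : Ω → ℝ≥0∞) : ℝ≥0∞ := ∫⁻ x, nlog (a x) ∂π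

/-- some `m` boxes of dimension `l` have a union of measure at least `1 - lam` -/
def Covers (I : Set (Set Ω)) (π : Measure Ω) (lam : ℝ) (l m : ℕ) : Prop :=
  ∃ J : Fin m → Fin l → Set Ω, (∀ k i, J k i ∈ I) ∧
    ENNReal.ofReal (1 - lam) ≤
      Measure.pi (fun _ : Fin l => π) (⋃ k, {x : Fin l → Ω | ∀ i, x i ∈ J k i})

/-- The covering number `N_ℓ(I, π, lam)`, with values in `[0,∞]`. -/
noncomputable def Ncov (I : Set (Set Ω)) (π : Measure Ω) (lam : ℝ) (l : ℕ) : ℝ≥0∞ :=
  ⨅ (m : ℕ) (_ : Covers I π lam l m), (m : ℝ≥0∞)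

/-- The upper covering entropy. -/
noncomputable def upperH (I : Set (Set Ω)) (π : Measure Ω) (lam : ℝ) : EReal :=
  limsup (fun l : ℕ => ENNReal.log (Ncov I π lam l) / (l : EReal)) atTop

/-- The lower covering entropy. -/
noncomputable def lowerH (I : Set (Set Ω)) (π : Measure Ω) (lam : ℝ) : EReal :=
  liminf (fun l : ℕ => ENNReal.log (Ncov I π lam l) / (l : EReal)) atTop

/-- The compatible measure bound. -/
noncomputable def Hfull (I : Set (Set Ω)) (π : Measure Ω) : ℝ≥0∞ :=
  ⨅ (_ : MeasurableSpace I) (β : Measure I) (_ : IsProbabilityMeasure β)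
    (_ : NullMeasurableSet {p : I × Ω | p.2 ∈ (p.1 : Set Ω)} (β.prod π)),
    phi π (fun x => β {J | x ∈ (J : Set Ω)})

/-- The bound by countable convex combinations. -/
noncomputable def Hcnt (I : Set (Set Ω)) (π : Measure Ω) : ℝ≥0∞ :=
  ⨅ (J : ℕ → Set Ω) (_ : ∀ k, J k ∈ I) (q : ℕ → ℝ≥0∞) (_ : ∑' k, q k = 1),
    phi π (fun x => ∑' k, q k * (J k).indicator 1 x)

end Defs

/-! ### Countable convex combinations -/

/-- A countable convex combination of members of `I`. -/
structure Comb {Ω : Type u} (I : Set (Set Ω)) where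
  J : ℕ → Set Ω
  mem : ∀ k, J k ∈ I
  q : ℕ → ℝ≥0∞
  sum : ∑' k, q k = 1

namespace Comb

variable {Ω : Type u} {I : Set (Set Ω)}

noncomputable def val (c : Comb I) (x : Ω) : ℝ≥0∞ := ∑' k, c.q k * (c.J k).indicator 1 x

noncomputable def f (c : Comb I) (x : Ω) : ℝ := (c.val x).toReal

theorem val_le_one (c : Comb I) (x : Ω) : c.val x ≤ 1 := by
  rw [← c.sum]
  apply ENNReal.tsum_le_tsum
  intro k
  by_cases h : x ∈ c.J k
  · simp [h]
  · simp [h]

theorem val_ne_top (c : Comb I) (x : Ω) : c.val x ≠ ∞ :=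
  ne_top_of_le_ne_top ENNReal.one_ne_top (c.val_le_one x)

theorem f_nonneg (c : Comb I) (x : Ω) : 0 ≤ c.f x := ENNReal.toReal_nonneg

theorem f_le_one (c : Comb I) (x : Ω) : c.f x ≤ 1 := by
  have := ENNReal.toReal_mono ENNReal.one_ne_top (c.val_le_one x)
  simpa [f] using this

theorem measurable_val [MeasurableSpace Ω] (hI : ∀ J ∈ I, MeasurableSet J) (c : Comb I) :
    Measurable c.val := by
  apply Measurable.tsum
  intro k
  exact (measurable_one.indicator (hI _ (c.mem k))).const_mul _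

theorem measurable_f [MeasurableSpace Ω] (hI : ∀ J ∈ I, MeasurableSet J) (c : Comb I) :
    Measurable c.f := (c.measurable_val hI).ennreal_toReal

theorem exists_mix (c : ℕ → Comb I) (Q : ℕ → ℝ≥0∞) (hQ : ∑' j, Q j = 1) :
    ∃ c' : Comb I, ∀ x, c'.val x = ∑' j, Q j * (c j).val x := by
  have key : ∀ g : ℕ → ℕ → ℝ≥0∞, ∑' k : ℕ, g (Nat.unpair k).1 (Nat.unpair k).2 =
      ∑' i, ∑' j, g i j := by
    intro g
    rw [← ENNReal.tsum_prod (f := g)]
    exact Nat.pairEquiv.symm.tsum_eq (fun p : ℕ × ℕ => g p.1 p.2)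
  refine ⟨⟨fun k => (c (Nat.unpair k).1).J (Nat.unpair k).2, fun k => (c _).mem _,
    fun k => Q (Nat.unpair k).1 * (c (Nat.unpair k).1).q (Nat.unpair k).2, ?_⟩, ?_⟩
  · rw [key fun i j => Q i * (c i).q j]
    simp_rw [ENNReal.tsum_mul_left, (c _).sum, mul_one]
    exact hQ
  · intro x
    simp only [val]
    rw [key fun i j => Q i * (c i).q j * ((c i).J j).indicator 1 x]
    congr 1
    funext i
    rw [← ENNReal.tsum_mul_left]
    congr 1
    funext j
    rw [mul_assoc]

theorem exists_mix2 (c₁ c₂ : Comb I) (t : ℝ) (h0 : 0 ≤ t) (h1 : t ≤ 1) :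
    ∃ c' : Comb I, ∀ x, c'.f x = (1 - t) * c₁.f x + t * c₂.f x := by
  obtain ⟨c', hc'⟩ := exists_mix (fun j => if j = 0 then c₁ else c₂)
    (fun j => if j = 0 then ENNReal.ofReal (1 - t) else if j = 1 then ENNReal.ofReal t else 0) (by
      rw [tsum_eq_sum (s := Finset.range 2)]
      · simp only [Finset.sum_range_succ, Finset.range_zero, Finset.sum_empty, zero_add, if_true,
          one_ne_zero, if_false]
        rw [← ENNReal.ofReal_add (by linarith) h0]
        simp
      · intro b hb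
        rw [Finset.mem_range, not_lt] at hb
        rw [if_neg (by omega), if_neg (by omega)])
  refine ⟨c', fun x => ?_⟩
  have h := hc' x
  rw [tsum_eq_sum (s := Finset.range 2)] at h
  · simp only [Finset.sum_range_succ, Finset.range_zero, Finset.sum_empty, zero_add, if_true,
      one_ne_zero, if_false] at h
    simp only [f]
    rw [h, ENNReal.toReal_add, ENNReal.toReal_mul, ENNReal.toReal_mul,
      ENNReal.toReal_ofReal (by linarith), ENNReal.toReal_ofReal h0]
    · exact ENNReal.mul_ne_top ENNReal.ofReal_ne_top (c₁.val_ne_top x)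
    · exact ENNReal.mul_ne_top ENNReal.ofReal_ne_top (c₂.val_ne_top x)
  · intro b hb
    rw [Finset.mem_range, not_lt] at hb
    rw [if_neg (by omega), if_neg (by omega), zero_mul]

theorem exists_single (J : Set Ω) (hJ : J ∈ I) : ∃ c : Comb I, ∀ x, c.f x = J.indicator 1 x := by
  refine ⟨⟨fun _ => J, fun _ => hJ, fun k => if k = 0 then 1 else 0, by simp⟩, fun x => ?_⟩
  simp only [f, val]
  rw [tsum_eq_single 0 (by intro k hk; simp [hk])]
  by_cases h : x ∈ J
  · simp [h]
  · simp [h]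

end Comb

/-! ### The regularised functional -/

section Phi

variable {Ω : Type u} [MeasurableSpace Ω] (π : Measure Ω) [IsProbabilityMeasure π]

/-- the regularised functional -/
noncomputable def Phi (ε : ℝ) (a : Ω → ℝ) : ℝ := ∫ x, -Real.log ((1 - ε) * a x + ε) ∂π

theorem integrable_Phi {ε : ℝ} (h0 : 0 < ε) (h1 : ε < 1) {a : Ω → ℝ} (ha : Measurable a)
    (ha0 : ∀ x, 0 ≤ a x) (ha1 : ∀ x, a x ≤ 1) :
    Integrable (fun x => -Real.log ((1 - ε) * a x + ε)) π := by
  refine Integrable.of_bound (C := -Real.log ε) ?_ ?_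
  · apply Measurable.aestronglyMeasurable
    fun_prop
  · refine Filter.Eventually.of_forall fun x => ?_
    have hx0 := ha0 x
    have hx1 := ha1 x
    have hb : ε ≤ (1 - ε) * a x + ε := by nlinarith
    have hb1 : (1 - ε) * a x + ε ≤ 1 := by nlinarith
    have h2 : Real.log ((1 - ε) * a x + ε) ≤ 0 := Real.log_nonpos (by linarith) hb1
    have h3 : Real.log ε ≤ Real.log ((1 - ε) * a x + ε) := Real.log_le_log h0 hb
    rw [Real.norm_eq_abs, abs_neg, abs_of_nonpos h2]
    linarith

theorem log_aux {ε b g t : ℝ} (h0 : 0 < ε) (hb : ε ≤ b) (hg : |g| ≤ 1) (ht0 : 0 ≤ t)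
    (ht : t ≤ ε / 2) :
    -Real.log (b + t * g) ≤ -Real.log b - t * (g / b) + 2 * t ^ 2 / ε ^ 2 := by
  have hb0 : 0 < b := by linarith
  set y := t * g / b with hy
  have hyabs : |y| ≤ t / ε := by
    rw [hy, abs_div, abs_mul, abs_of_nonneg ht0, abs_of_pos hb0]
    apply div_le_div₀ ht0 _ h0 hb
    calc t * |g| ≤ t * 1 := mul_le_mul_of_nonneg_left hg ht0
      _ = t := mul_one t
  have hte : t / ε ≤ 1 / 2 := by
    rw [div_le_iff₀ h0]
    linarith
  have hy2 : -(1 / 2) ≤ y := by
    have := neg_abs_le y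
    linarith
  have h1y : 0 < 1 + y := by linarith
  have hbt : b + t * g = b * (1 + y) := by
    rw [hy]
    field_simp
  rw [hbt, Real.log_mul hb0.ne' h1y.ne']
  have h2 := Real.one_sub_inv_le_log_of_pos h1y
  have h3 : y - 2 * y ^ 2 ≤ 1 - (1 + y)⁻¹ := by
    have h4 : 1 - (1 + y)⁻¹ - (y - 2 * y ^ 2) = y ^ 2 * (1 + 2 * y) / (1 + y) := by
      field_simp
      ring
    have h5 : 0 ≤ y ^ 2 * (1 + 2 * y) / (1 + y) := by
      apply div_nonneg _ h1y.le
      apply mul_nonneg (sq_nonneg y)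
      linarith
    linarith
  have h6 : y ^ 2 ≤ t ^ 2 / ε ^ 2 := by
    rw [← div_pow, ← sq_abs y]
    exact pow_le_pow_left₀ (abs_nonneg y) hyabs 2
  have h7 : t * (g / b) = y := by
    rw [hy]
    ring
  have h8 : 2 * t ^ 2 / ε ^ 2 = 2 * (t ^ 2 / ε ^ 2) := by ring
  rw [h7, h8]
  linarith

/-- Approximate optimality condition. -/
theorem kkt {I : Set (Set Ω)} (hI : ∀ J ∈ I, MeasurableSet J) {ε : ℝ} (h0 : 0 < ε) (h1 : ε < 1)
    {τ : ℝ} (hτ0 : 0 < τ) (hτ : τ ≤ ε / 2) (c : Comb I)
    (hc : ∀ c' : Comb I, Phi π ε c.f ≤ Phi π ε c'.f + τ ^ 2) (J : Set Ω) (hJ : J ∈ I) :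
    ∫ x, J.indicator 1 x * ((1 - ε) * c.f x + ε)⁻¹ ∂π ≤
      1 + τ * (1 + 2 / ε ^ 2) / (1 - ε) := by
  obtain ⟨s, hs⟩ := Comb.exists_single J hJ
  obtain ⟨c', hc'⟩ := Comb.exists_mix2 c s τ hτ0.le (by linarith)
  have hmeas := c.measurable_f hI
  have hJm := hI J hJ
  set b : Ω → ℝ := fun x => (1 - ε) * c.f x + ε with hb
  set g : Ω → ℝ := fun x => (1 - ε) * (J.indicator 1 x - c.f x) with hg
  have hbx : ∀ x, ε ≤ b x := fun x => by
    have := c.f_nonneg x
    simp only [hb]
    nlinarith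
  have hbx1 : ∀ x, b x ≤ 1 := fun x => by
    have := c.f_le_one x
    simp only [hb]
    nlinarith
  have hind : ∀ x, 0 ≤ J.indicator (1 : Ω → ℝ) x ∧ J.indicator (1 : Ω → ℝ) x ≤ 1 := by
    intro x
    by_cases h : x ∈ J
    · simp [h]
    · simp [h]
  have hgx : ∀ x, |g x| ≤ 1 := fun x => by
    have h2 := c.f_nonneg x
    have h3 := c.f_le_one x
    obtain ⟨h4, h5⟩ := hind x
    simp only [hg]
    rw [abs_mul, abs_of_pos (by linarith : (0 : ℝ) < 1 - ε)]
    have h6 : |J.indicator (1 : Ω → ℝ) x - c.f x| ≤ 1 := by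
      rw [abs_le]
      constructor <;> linarith
    nlinarith [abs_nonneg (J.indicator (1 : Ω → ℝ) x - c.f x)]
  have hbm : Measurable b := by fun_prop
  have hgm : Measurable g := by
    have : Measurable (J.indicator (1 : Ω → ℝ)) := measurable_one.indicator hJm
    fun_prop
  -- integrability
  have hint1 : Integrable (fun x => -Real.log (b x)) π :=
    integrable_Phi π h0 h1 hmeas c.f_nonneg c.f_le_one
  have hgb : ∀ x, |g x / b x| ≤ 1 / ε := fun x => by
    rw [abs_div, abs_of_pos (lt_of_lt_of_le h0 (hbx x))]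
    exact div_le_div₀ zero_le_one (hgx x) h0 (hbx x)
  have hint2 : Integrable (fun x => g x / b x) π := by
    refine Integrable.of_bound (C := 1 / ε) (hgm.div hbm).aestronglyMeasurable ?_
    exact Filter.Eventually.of_forall fun x => hgb x
  have hle : Phi π ε c'.f ≤ ∫ x, (-Real.log (b x) - τ * (g x / b x) + 2 * τ ^ 2 / ε ^ 2) ∂π := by
    apply integral_mono (integrable_Phi π h0 h1 (c'.measurable_f hI) c'.f_nonneg c'.f_le_one)
      ((hint1.sub (hint2.const_mul τ)).add (integrable_const _))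
    intro x
    have h2 : (1 - ε) * c'.f x + ε = b x + τ * g x := by
      rw [hc' x, hs x]
      simp only [hb, hg]
      ring
    simp only [h2]
    exact log_aux h0 (hbx x) (hgx x) hτ0.le hτ
  have hsplit : ∫ x, (-Real.log (b x) - τ * (g x / b x) + 2 * τ ^ 2 / ε ^ 2) ∂π =
      Phi π ε c.f - τ * ∫ x, g x / b x ∂π + 2 * τ ^ 2 / ε ^ 2 := by
    have e1 : Integrable (fun x => -Real.log (b x) - τ * (g x / b x)) π :=
      hint1.sub (hint2.const_mul τ)
    rw [integral_add e1 (integrable_const _), integral_sub hint1 (hint2.const_mul τ),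
      integral_const_mul]
    simp [Phi, hb]
  rw [hsplit] at hle
  have h3 := hc c'
  have h4 : ∫ x, g x / b x ∂π ≤ τ * (1 + 2 / ε ^ 2) := by
    have h5 : τ * ∫ x, g x / b x ∂π ≤ τ * (τ * (1 + 2 / ε ^ 2)) := by
      have h6 : τ * (τ * (1 + 2 / ε ^ 2)) = τ ^ 2 + 2 * τ ^ 2 / ε ^ 2 := by ring
      linarith
    exact le_of_mul_le_mul_left h5 hτ0
  -- compute
  have hinvb : ∀ x, 0 ≤ (b x)⁻¹ ∧ (b x)⁻¹ ≤ ε⁻¹ ∧ 1 ≤ (b x)⁻¹ := fun x => by
    have h5 := lt_of_lt_of_le h0 (hbx x)
    exact ⟨(inv_pos.2 h5).le, inv_anti₀ h0 (hbx x), (one_le_inv₀ h5).2 (hbx1 x)⟩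
  have hint3 : Integrable (fun x => (b x)⁻¹) π := by
    refine Integrable.of_bound (C := ε⁻¹) hbm.inv.aestronglyMeasurable ?_
    refine Filter.Eventually.of_forall fun x => ?_
    rw [Real.norm_of_nonneg (hinvb x).1]
    exact (hinvb x).2.1
  have hint4 : Integrable (fun x => J.indicator 1 x * (b x)⁻¹) π := by
    refine Integrable.of_bound (C := ε⁻¹)
      ((measurable_one.indicator hJm).mul hbm.inv).aestronglyMeasurable ?_
    refine Filter.Eventually.of_forall fun x => ?_
    obtain ⟨h5, h6⟩ := hind x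
    rw [Real.norm_of_nonneg (mul_nonneg h5 (hinvb x).1)]
    have := (hinvb x).2.1
    have := (hinvb x).1
    nlinarith
  have h5 : ∀ x, g x / b x = (1 - ε) * (J.indicator 1 x * (b x)⁻¹) - (1 - ε * (b x)⁻¹) := by
    intro x
    have h6 : b x ≠ 0 := (lt_of_lt_of_le h0 (hbx x)).ne'
    have h7 : (1 - ε) * c.f x = b x - ε := by
      simp only [hb]
      ring
    have h8 : g x = (1 - ε) * J.indicator 1 x - (b x - ε) := by
      simp only [hg]
      rw [← h7]
      ring
    rw [h8]
    field_simp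
  simp_rw [h5] at h4
  have e2 : Integrable (fun x => 1 - ε * (b x)⁻¹) π := (integrable_const _).sub (hint3.const_mul _)
  rw [integral_sub (hint4.const_mul _) e2, integral_const_mul,
    integral_sub (integrable_const _) (hint3.const_mul _), integral_const_mul] at h4
  have h6 : 1 ≤ ∫ x, (b x)⁻¹ ∂π := by
    have h7 : ∫ _x : Ω, (1 : ℝ) ∂π ≤ ∫ x, (b x)⁻¹ ∂π :=
      integral_mono (integrable_const _) hint3 fun x => (hinvb x).2.2
    simpa using h7
  simp only [integral_const, probReal_univ, smul_eq_mul, mul_one] at h4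
  have h7 : (1 - ε) * ∫ x, J.indicator 1 x * (b x)⁻¹ ∂π ≤ (1 - ε) + τ * (1 + 2 / ε ^ 2) := by
    nlinarith
  have h8 : 0 < 1 - ε := by linarith
  have h9 : ∫ x, J.indicator 1 x * (b x)⁻¹ ∂π ≤ ((1 - ε) + τ * (1 + 2 / ε ^ 2)) / (1 - ε) := by
    rw [le_div_iff₀ h8]
    linarith
  refine h9.trans (le_of_eq ?_)
  field_simp

end Phi

/-! ### The lower bound for covering numbers -/

section Cover

variable {Ω : Type u} [MeasurableSpace Ω] (π : Measure Ω) [IsProbabilityMeasure π]

theorem box_bound {I : Set (Set Ω)} (hI : ∀ J ∈ I, MeasurableSet J) {b : Ω → ℝ}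
    (hb : Measurable b) {ε : ℝ} (h0 : 0 < ε) (hbx : ∀ x, ε ≤ b x) {A : ℝ}
    (hA : ∀ J ∈ I, ∫ x, J.indicator 1 x * (b x)⁻¹ ∂π ≤ A) {l : ℕ} (J : Fin l → Set Ω)
    (hJ : ∀ i, J i ∈ I) (s : ℝ) :
    (Measure.pi (fun _ : Fin l => π)).real
      ({x : Fin l → Ω | ∀ i, x i ∈ J i} ∩ {x | s ≤ ∑ i, -Real.log (b (x i))}) ≤
      Real.exp (-s) * A ^ l := by
  have hbpos : ∀ x, 0 < b x := fun x => lt_of_lt_of_le h0 (hbx x)
  have hm1 : MeasurableSet {x : Fin l → Ω | ∀ i, x i ∈ J i} := by
    have : {x : Fin l → Ω | ∀ i, x i ∈ J i} = ⋂ i, (fun x : Fin l → Ω => x i) ⁻¹' (J i) := by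
      ext x
      simp
    rw [this]
    exact MeasurableSet.iInter fun i => measurable_pi_apply i (hI _ (hJ i))
  have hm2 : MeasurableSet {x : Fin l → Ω | s ≤ ∑ i, -Real.log (b (x i))} := by
    apply measurableSet_le measurable_const
    fun_prop
  rw [← integral_indicator_one (hm1.inter hm2)]
  have hind : ∀ (S : Set Ω) x, 0 ≤ S.indicator (1 : Ω → ℝ) x ∧ S.indicator (1 : Ω → ℝ) x ≤ 1 := by
    intro S x
    by_cases h : x ∈ S
    · simp [h]
    · simp [h]
  have hprodm : Measurable fun x : Fin l → Ω =>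
      ∏ i, ((J i).indicator (1 : Ω → ℝ) (x i) * (b (x i))⁻¹) := by
    apply Finset.measurable_fun_prod
    intro i _
    have h2 : Measurable ((J i).indicator (1 : Ω → ℝ)) := measurable_one.indicator (hI _ (hJ i))
    exact (h2.comp (measurable_pi_apply i)).mul ((hb.comp (measurable_pi_apply i)).inv)
  have hprodb : ∀ x : Fin l → Ω,
      0 ≤ ∏ i, ((J i).indicator (1 : Ω → ℝ) (x i) * (b (x i))⁻¹) ∧
      ∏ i, ((J i).indicator (1 : Ω → ℝ) (x i) * (b (x i))⁻¹) ≤ (ε⁻¹) ^ l := by
    intro x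
    constructor
    · exact Finset.prod_nonneg fun i _ => mul_nonneg (hind _ _).1 (inv_pos.2 (hbpos _)).le
    · calc ∏ i, ((J i).indicator (1 : Ω → ℝ) (x i) * (b (x i))⁻¹) ≤ ∏ _i : Fin l, ε⁻¹ := by
            apply Finset.prod_le_prod
            · exact fun i _ => mul_nonneg (hind _ _).1 (inv_pos.2 (hbpos _)).le
            · intro i _
              have h3 := (hind (J i) (x i)).2
              have h4 := (hind (J i) (x i)).1
              have h5 : (b (x i))⁻¹ ≤ ε⁻¹ := inv_anti₀ h0 (hbx _)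
              have h6 : 0 < (b (x i))⁻¹ := inv_pos.2 (hbpos _)
              nlinarith
        _ = (ε⁻¹) ^ l := by simp
  have hint : Integrable (fun x : Fin l → Ω => Real.exp (-s) *
      ∏ i, ((J i).indicator (1 : Ω → ℝ) (x i) * (b (x i))⁻¹)) (Measure.pi fun _ : Fin l => π) := by
    refine (Integrable.of_bound (C := (ε⁻¹) ^ l) hprodm.aestronglyMeasurable ?_).const_mul _
    refine Filter.Eventually.of_forall fun x => ?_
    rw [Real.norm_of_nonneg (hprodb x).1]
    exact (hprodb x).2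
  have hle : ∫ x : Fin l → Ω, ({x : Fin l → Ω | ∀ i, x i ∈ J i} ∩
      {x | s ≤ ∑ i, -Real.log (b (x i))}).indicator 1 x ∂(Measure.pi fun _ : Fin l => π) ≤
      ∫ x : Fin l → Ω, Real.exp (-s) *
        ∏ i, ((J i).indicator (1 : Ω → ℝ) (x i) * (b (x i))⁻¹) ∂(Measure.pi fun _ : Fin l => π) := by
    apply integral_mono _ hint
    · intro x
      by_cases hx : x ∈ ({x : Fin l → Ω | ∀ i, x i ∈ J i} ∩
        {x | s ≤ ∑ i, -Real.log (b (x i))})
      · simp only [Set.indicator_of_mem hx, Pi.one_apply]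
        have h3 : ∀ i, (J i).indicator (1 : Ω → ℝ) (x i) = 1 := fun i => by
          rw [Set.indicator_of_mem (hx.1 i)]
          rfl
        have h4 : ∏ i, ((J i).indicator (1 : Ω → ℝ) (x i) * (b (x i))⁻¹) =
            Real.exp (∑ i, -Real.log (b (x i))) := by
          rw [Real.exp_sum]
          apply Finset.prod_congr rfl
          intro i _
          rw [h3, one_mul, Real.exp_neg, Real.exp_log (hbpos _)]
        rw [h4, ← Real.exp_add]
        apply Real.one_le_exp
        have h5 : s ≤ ∑ i, -Real.log (b (x i)) := hx.2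
        linarith
      · simp only [Set.indicator_of_notMem hx]
        exact mul_nonneg (Real.exp_pos _).le (hprodb x).1
    · exact (integrable_const (1 : ℝ)).indicator (hm1.inter hm2)
  refine hle.trans ?_
  rw [integral_const_mul]
  apply mul_le_mul_of_nonneg_left _ (Real.exp_pos _).le
  rw [integral_fintype_prod_eq_prod (fun i x => (J i).indicator (1 : Ω → ℝ) x * (b x)⁻¹)]
  calc ∏ i, ∫ x, (J i).indicator (1 : Ω → ℝ) x * (b x)⁻¹ ∂π ≤ ∏ _i : Fin l, A := by
        apply Finset.prod_le_prod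
        · intro i _
          exact integral_nonneg fun x => mul_nonneg (hind _ _).1 (inv_pos.2 (hbpos _)).le
        · intro i _
          exact hA _ (hJ i)
    _ = A ^ l := by simp

theorem exp_aux {y : ℝ} (hy : 0 ≤ y) : Real.exp (-y) ≤ 1 - y + y ^ 2 := by
  rw [Real.exp_neg]
  have h1 : (Real.exp y)⁻¹ ≤ (1 + y)⁻¹ := by
    apply inv_anti₀ (by linarith)
    have := Real.add_one_le_exp y
    linarith
  have h2 : (1 + y)⁻¹ ≤ 1 - y + y ^ 2 := by
    rw [inv_le_iff_one_le_mul₀ (by linarith)]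
    nlinarith [pow_nonneg hy 3]
  exact h1.trans h2

theorem tail_bound {b : Ω → ℝ} (hb : Measurable b) {ε : ℝ} (h0 : 0 < ε) (h1 : ε < 1)
    (hbx : ∀ x, ε ≤ b x) (hbx1 : ∀ x, b x ≤ 1) {η : ℝ} (hη : 0 < η) (l : ℕ) :
    (Measure.pi (fun _ : Fin l => π)).real
      {x | ∑ i, -Real.log (b (x i)) < l * ((∫ x, -Real.log (b x) ∂π) - η)} ≤
      Real.exp (-(l * (η ^ 2 / (4 * Real.log ε ^ 2)))) := by
  set h := ∫ x, -Real.log (b x) ∂π with hh
  set M := -Real.log ε with hM
  have hM0 : 0 < M := by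
    have := Real.log_neg h0 h1
    linarith
  set σ := η / (2 * M ^ 2) with hσ
  have hσ0 : 0 < σ := by positivity
  have hbpos : ∀ x, 0 < b x := fun x => lt_of_lt_of_le h0 (hbx x)
  have hu0 : ∀ x, 0 ≤ -Real.log (b x) := fun x => by
    have := Real.log_nonpos (hbpos x).le (hbx1 x)
    linarith
  have huM : ∀ x, -Real.log (b x) ≤ M := fun x => by
    have := Real.log_le_log h0 (hbx x)
    linarith
  have hum : Measurable fun x => -Real.log (b x) := by fun_prop
  have huint : Integrable (fun x => -Real.log (b x)) π := by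
    refine Integrable.of_bound (C := M) hum.aestronglyMeasurable ?_
    refine Filter.Eventually.of_forall fun x => ?_
    rw [Real.norm_of_nonneg (hu0 x)]
    exact huM x
  have hem : Measurable fun x => Real.exp (-(σ * -Real.log (b x))) := by fun_prop
  have hone : ∫ x, Real.exp (-(σ * -Real.log (b x))) ∂π ≤ Real.exp (-(σ * h) + σ ^ 2 * M ^ 2) := by
    have h2 : ∫ x, Real.exp (-(σ * -Real.log (b x))) ∂π ≤
        ∫ x, (1 - σ * -Real.log (b x) + σ ^ 2 * M ^ 2) ∂π := by
      apply integral_mono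
      · refine Integrable.of_bound (C := 1) hem.aestronglyMeasurable ?_
        refine Filter.Eventually.of_forall fun x => ?_
        rw [Real.norm_of_nonneg (Real.exp_pos _).le, Real.exp_le_one_iff]
        have := mul_nonneg hσ0.le (hu0 x)
        linarith
      · exact ((integrable_const _).sub (huint.const_mul σ)).add (integrable_const _)
      · intro x
        simp only
        have h3 := exp_aux (mul_nonneg hσ0.le (hu0 x))
        have h4 : (σ * -Real.log (b x)) ^ 2 ≤ σ ^ 2 * M ^ 2 := by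
          rw [mul_pow]
          apply mul_le_mul_of_nonneg_left _ (sq_nonneg σ)
          exact pow_le_pow_left₀ (hu0 x) (huM x) 2
        linarith
    have e1 : Integrable (fun x => 1 - σ * -Real.log (b x)) π :=
      (integrable_const _).sub (huint.const_mul σ)
    rw [integral_add e1 (integrable_const _), integral_sub (integrable_const _)
      (huint.const_mul σ), integral_const_mul] at h2
    simp only [integral_const, probReal_univ, smul_eq_mul, mul_one, one_mul] at h2
    have h5 := Real.add_one_le_exp (-(σ * h) + σ ^ 2 * M ^ 2)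
    linarith
  have hmS : MeasurableSet {x : Fin l → Ω | ∑ i, -Real.log (b (x i)) < l * (h - η)} := by
    apply measurableSet_lt _ measurable_const
    fun_prop
  rw [← integral_indicator_one hmS]
  have hprod : ∀ x : Fin l → Ω, ∏ i, Real.exp (-(σ * -Real.log (b (x i)))) =
      Real.exp (-(σ * ∑ i, -Real.log (b (x i)))) := by
    intro x
    rw [← Real.exp_sum, Finset.sum_neg_distrib, Finset.mul_sum]
  have hpm : Measurable fun x : Fin l → Ω => ∏ i, Real.exp (-(σ * -Real.log (b (x i)))) := by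
    apply Finset.measurable_fun_prod
    intro i _
    exact hem.comp (measurable_pi_apply i)
  have hint : Integrable (fun x : Fin l → Ω => Real.exp (σ * (l * (h - η))) *
      ∏ i, Real.exp (-(σ * -Real.log (b (x i))))) (Measure.pi fun _ : Fin l => π) := by
    refine (Integrable.of_bound (C := 1) hpm.aestronglyMeasurable ?_).const_mul _
    refine Filter.Eventually.of_forall fun x => ?_
    rw [hprod, Real.norm_of_nonneg (Real.exp_pos _).le, Real.exp_le_one_iff]
    have : 0 ≤ ∑ i, -Real.log (b (x i)) := Finset.sum_nonneg fun i _ => hu0 _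
    have := mul_nonneg hσ0.le this
    linarith
  have hle : ∫ x : Fin l → Ω, ({x : Fin l → Ω | ∑ i, -Real.log (b (x i)) <
      l * (h - η)}).indicator 1 x ∂(Measure.pi fun _ : Fin l => π) ≤
      ∫ x : Fin l → Ω, Real.exp (σ * (l * (h - η))) *
        ∏ i, Real.exp (-(σ * -Real.log (b (x i)))) ∂(Measure.pi fun _ : Fin l => π) := by
    apply integral_mono _ hint
    · intro x
      by_cases hx : x ∈ {x : Fin l → Ω | ∑ i, -Real.log (b (x i)) < l * (h - η)}
      · simp only [Set.indicator_of_mem hx, Pi.one_apply]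
        rw [hprod, ← Real.exp_add]
        apply Real.one_le_exp
        have h5 : ∑ i, -Real.log (b (x i)) < l * (h - η) := hx
        nlinarith
      · simp only [Set.indicator_of_notMem hx]
        exact mul_nonneg (Real.exp_pos _).le (Finset.prod_nonneg fun i _ => (Real.exp_pos _).le)
    · exact (integrable_const (1 : ℝ)).indicator hmS
  refine hle.trans ?_
  rw [integral_const_mul, integral_fintype_prod_eq_prod
    (fun (_ : Fin l) x => Real.exp (-(σ * -Real.log (b x)))), Finset.prod_const, Finset.card_univ,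
    Fintype.card_fin]
  have h6 : (∫ x, Real.exp (-(σ * -Real.log (b x))) ∂π) ^ l ≤
      Real.exp (-(σ * h) + σ ^ 2 * M ^ 2) ^ l :=
    pow_le_pow_left₀ (integral_nonneg fun x => (Real.exp_pos _).le) hone l
  refine (mul_le_mul_of_nonneg_left h6 (Real.exp_pos _).le).trans ?_
  rw [← Real.exp_nat_mul, ← Real.exp_add]
  apply Real.exp_le_exp.2
  apply le_of_eq
  have h7 : Real.log ε ^ 2 = M ^ 2 := by
    rw [hM]
    ring
  rw [h7, hσ]
  field_simp
  ring

theorem cover_bound {I : Set (Set Ω)} (hI : ∀ J ∈ I, MeasurableSet J) {b : Ω → ℝ}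
    (hb : Measurable b) {ε : ℝ} (h0 : 0 < ε) (h1 : ε < 1) (hbx : ∀ x, ε ≤ b x)
    (hbx1 : ∀ x, b x ≤ 1) {A : ℝ} (hA : ∀ J ∈ I, ∫ x, J.indicator 1 x * (b x)⁻¹ ∂π ≤ A)
    {η : ℝ} (hη : 0 < η) {lam : ℝ} {l m : ℕ} (hc : Covers I π lam l m) :
    1 - lam ≤ m * (Real.exp (-(l * ((∫ x, -Real.log (b x) ∂π) - η))) * A ^ l) +
      Real.exp (-(l * (η ^ 2 / (4 * Real.log ε ^ 2)))) := by
  obtain ⟨J, hJ, hcov⟩ := hc
  set μ := Measure.pi (fun _ : Fin l => π) with hμ
  set s := l * ((∫ x, -Real.log (b x) ∂π) - η) with hs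
  have h2 : 1 - lam ≤ μ.real (⋃ k, {x : Fin l → Ω | ∀ i, x i ∈ J k i}) := by
    have h3 := ENNReal.toReal_mono (measure_ne_top μ _) hcov
    have h4 : 1 - lam ≤ (ENNReal.ofReal (1 - lam)).toReal := by
      rw [ENNReal.toReal_ofReal']
      exact le_max_left _ _
    exact h4.trans h3
  have h3 : (⋃ k, {x : Fin l → Ω | ∀ i, x i ∈ J k i}) ⊆
      (⋃ k, ({x : Fin l → Ω | ∀ i, x i ∈ J k i} ∩ {x | s ≤ ∑ i, -Real.log (b (x i))})) ∪
        {x | ∑ i, -Real.log (b (x i)) < s} := by
    intro x hx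
    rw [Set.mem_iUnion] at hx
    obtain ⟨k, hk⟩ := hx
    by_cases hxs : s ≤ ∑ i, -Real.log (b (x i))
    · left
      exact Set.mem_iUnion.2 ⟨k, hk, hxs⟩
    · right
      exact not_le.1 hxs
  have h4 := (measureReal_mono h3 (measure_ne_top μ _)).trans (measureReal_union_le _ _)
  have h5 := measureReal_iUnion_fintype_le (μ := μ)
    (fun k => ({x : Fin l → Ω | ∀ i, x i ∈ J k i} ∩ {x | s ≤ ∑ i, -Real.log (b (x i))}))
  have h6 : ∑ k : Fin m, μ.real ({x : Fin l → Ω | ∀ i, x i ∈ J k i} ∩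
      {x | s ≤ ∑ i, -Real.log (b (x i))}) ≤ ∑ _k : Fin m, Real.exp (-s) * A ^ l :=
    Finset.sum_le_sum fun k _ => box_bound π hI hb h0 hbx hA (J k) (hJ k) s
  rw [Finset.sum_const, Finset.card_univ, Fintype.card_fin, nsmul_eq_mul] at h6
  have h7 := tail_bound π hb h0 h1 hbx hbx1 hη l
  linarith

omit [IsProbabilityMeasure π] in
theorem Phi_nonneg {ε : ℝ} (h0 : 0 < ε) (h1 : ε < 1) {a : Ω → ℝ} (ha0 : ∀ x, 0 ≤ a x)
    (ha1 : ∀ x, a x ≤ 1) : 0 ≤ Phi π ε a := by
  apply integral_nonneg
  intro x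
  have hx0 := ha0 x
  have hx1 := ha1 x
  have hb : 0 ≤ (1 - ε) * a x + ε := by nlinarith
  have hb1 : (1 - ε) * a x + ε ≤ 1 := by nlinarith
  have h2 : Real.log ((1 - ε) * a x + ε) ≤ 0 := Real.log_nonpos hb hb1
  simp only [Pi.zero_apply]
  linarith

omit [IsProbabilityMeasure π] in
theorem exists_near_min {I : Set (Set Ω)} (hne : Nonempty (Comb I)) {ε : ℝ} (h0 : 0 < ε)
    (h1 : ε < 1) {ρ : ℝ} (hρ : 0 < ρ) :
    ∃ c : Comb I, ∀ c' : Comb I, Phi π ε c.f ≤ Phi π ε c'.f + ρ := by
  set S := Set.range fun c : Comb I => Phi π ε c.f with hS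
  have hSn : S.Nonempty := Set.range_nonempty _
  have hSb : BddBelow S := by
    refine ⟨0, ?_⟩
    rintro _ ⟨c, rfl⟩
    exact Phi_nonneg π h0 h1 c.f_nonneg c.f_le_one
  obtain ⟨y, ⟨c, rfl⟩, hy⟩ := exists_lt_of_csInf_lt hSn (lt_add_of_pos_right (sInf S) hρ)
  refine ⟨c, fun c' => ?_⟩
  have h2 : sInf S ≤ Phi π ε c'.f := csInf_le hSb ⟨c', rfl⟩
  simp only at hy
  linarith

omit [IsProbabilityMeasure π] in
theorem frequently_covers {I : Set (Set Ω)} {lam h' : ℝ} (hlow : lowerH I π lam < h') :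
    ∃ᶠ l : ℕ in atTop, ∃ m, Covers I π lam l m ∧ (m : ℝ) ≤ Real.exp (h' * l) := by
  have h1 := frequently_lt_of_liminf_lt (by isBoundedDefault) hlow
  refine (h1.and_eventually (eventually_gt_atTop 0)).mono ?_
  rintro l ⟨hl, hl0⟩
  have hl1 : (0 : EReal) < (l : EReal) := by exact_mod_cast hl0
  have hl2 : (l : EReal) ≠ ⊤ := EReal.natCast_ne_top l
  rw [EReal.div_lt_iff hl1 hl2] at hl
  have h3 : Ncov I π lam l < ENNReal.ofReal (Real.exp (h' * l)) := by
    by_contra hcon
    rw [not_lt] at hcon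
    have h4 := ENNReal.log_monotone hcon
    rw [ENNReal.log_ofReal_of_pos (Real.exp_pos _), Real.log_exp] at h4
    have h5 : ((h' * (l : ℝ) : ℝ) : EReal) = (h' : EReal) * (l : EReal) := by
      rw [EReal.coe_mul]
      rfl
    rw [h5] at h4
    exact absurd hl (not_lt.2 h4)
  rw [Ncov, iInf_lt_iff] at h3
  obtain ⟨m, hm⟩ := h3
  rw [iInf_lt_iff] at hm
  obtain ⟨hc, hm⟩ := hm
  refine ⟨m, hc, ?_⟩
  have h6 : (m : ℝ≥0∞) = ENNReal.ofReal (m : ℝ) := by simp
  rw [h6, ENNReal.ofReal_lt_ofReal_iff (Real.exp_pos _)] at hm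
  exact hm.le

omit [IsProbabilityMeasure π] in
theorem nonempty_comb {I : Set (Set Ω)} {lam h' : ℝ} (hlam : lam < 1)
    (hlow : lowerH I π lam < h') : Nonempty (Comb I) := by
  obtain ⟨l, ⟨m, ⟨J, hJ, hcov⟩, -⟩, hl⟩ :=
    ((frequently_covers π hlow).and_eventually (eventually_gt_atTop 0)).exists
  have hm : 0 < m := by
    rcases Nat.eq_zero_or_pos m with h | h
    · subst h
      simp only [Set.iUnion_of_empty, measure_empty, nonpos_iff_eq_zero,
        ENNReal.ofReal_eq_zero] at hcov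
      linarith
    · exact h
  obtain ⟨c, -⟩ := Comb.exists_single (J ⟨0, hm⟩ ⟨0, hl⟩) (hJ _ _)
  exact ⟨c⟩

theorem inf_le {I : Set (Set Ω)} (hI : ∀ J ∈ I, MeasurableSet J) {lam h' : ℝ} (hlam : lam < 1)
    (hlow : lowerH I π lam < h') {ε : ℝ} (h0 : 0 < ε) (h1 : ε < 1) {e : ℝ} (he : 0 < e) :
    ∃ c : Comb I, Phi π ε c.f ≤ h' + e := by
  by_contra hcon
  push Not at hcon
  have h1' : 0 < 1 - ε := by linarith
  set τ := min (ε / 2) (e / 4 * (1 - ε) / (1 + 2 / ε ^ 2)) with hτ
  have hτ0 : 0 < τ := lt_min (by linarith) (by positivity)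
  have hτ1 : τ ≤ ε / 2 := min_le_left _ _
  have hτ2 : τ * (1 + 2 / ε ^ 2) / (1 - ε) ≤ e / 4 := by
    have h2 : τ ≤ e / 4 * (1 - ε) / (1 + 2 / ε ^ 2) := min_le_right _ _
    rw [le_div_iff₀ (by positivity)] at h2
    rw [div_le_iff₀ h1']
    linarith
  obtain ⟨c, hc⟩ := exists_near_min π (nonempty_comb π hlam hlow) h0 h1 (pow_pos hτ0 2)
  have hA := kkt π hI h0 h1 hτ0 hτ1 c hc
  set A := Real.exp (e / 4) with hAd
  have hA' : ∀ J ∈ I, ∫ x, J.indicator 1 x * ((1 - ε) * c.f x + ε)⁻¹ ∂π ≤ A := by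
    intro J hJ
    refine (hA J hJ).trans ?_
    have := Real.add_one_le_exp (e / 4)
    linarith
  have hmeas := c.measurable_f hI
  have hbx : ∀ x, ε ≤ (1 - ε) * c.f x + ε := fun x => by
    have := c.f_nonneg x
    nlinarith
  have hbx1 : ∀ x, (1 - ε) * c.f x + ε ≤ 1 := fun x => by
    have := c.f_le_one x
    nlinarith
  set c₀ := (e / 4) ^ 2 / (4 * Real.log ε ^ 2) with hc₀
  have hc₀0 : 0 < c₀ := by
    have : Real.log ε ≠ 0 := (Real.log_neg h0 h1).ne
    positivity
  have hbound : ∀ l m : ℕ, Covers I π lam l m → (m : ℝ) ≤ Real.exp (h' * l) →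
      1 - lam ≤ Real.exp (-(e / 2)) ^ l + Real.exp (-c₀) ^ l := by
    intro l m hcov hm
    have h2 := cover_bound π hI (b := fun x => (1 - ε) * c.f x + ε) (by fun_prop) h0 h1 hbx hbx1
      hA' (η := e / 4) (by linarith) hcov
    have h3 : h' + e < ∫ x, -Real.log ((1 - ε) * c.f x + ε) ∂π := hcon c
    set h := ∫ x, -Real.log ((1 - ε) * c.f x + ε) ∂π with hh
    have h4 : (m : ℝ) * (Real.exp (-(l * (h - e / 4))) * A ^ l) ≤ Real.exp (-(e / 2)) ^ l := by
      calc (m : ℝ) * (Real.exp (-(l * (h - e / 4))) * A ^ l) ≤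
            Real.exp (h' * l) * (Real.exp (-(l * (h - e / 4))) * A ^ l) :=
            mul_le_mul_of_nonneg_right hm (by positivity)
        _ = Real.exp (h' * l + (-(l * (h - e / 4)) + l * (e / 4))) := by
            rw [hAd, ← Real.exp_nat_mul, ← Real.exp_add, ← Real.exp_add]
        _ ≤ Real.exp (l * (-(e / 2))) := by
            apply Real.exp_le_exp.2
            have : (0 : ℝ) ≤ l := Nat.cast_nonneg l
            nlinarith
        _ = Real.exp (-(e / 2)) ^ l := by rw [← Real.exp_nat_mul]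
    have h5 : Real.exp (-(l * c₀)) = Real.exp (-c₀) ^ l := by
      rw [← Real.exp_nat_mul]
      congr 1
      ring
    rw [h5] at h2
    linarith
  have ht1 : Tendsto (fun l : ℕ => Real.exp (-(e / 2)) ^ l) atTop (𝓝 0) := by
    apply tendsto_pow_atTop_nhds_zero_of_lt_one (Real.exp_pos _).le
    rw [Real.exp_lt_one_iff]
    linarith
  have ht2 : Tendsto (fun l : ℕ => Real.exp (-c₀) ^ l) atTop (𝓝 0) := by
    apply tendsto_pow_atTop_nhds_zero_of_lt_one (Real.exp_pos _).le
    rw [Real.exp_lt_one_iff]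
    linarith
  have ht := ht1.add ht2
  rw [add_zero] at ht
  have hev := ht.eventually_lt_const (by linarith : (0 : ℝ) < 1 - lam)
  obtain ⟨l, ⟨m, hcov, hm⟩, hl⟩ := ((frequently_covers π hlow).and_eventually hev).exists
  have := hbound l m hcov hm
  linarith

end Cover

/-! ### The function `nlog` -/

section Nlog

theorem nlog_continuous : Continuous nlog :=
  EReal.continuous_toENNReal.comp (continuous_neg.comp ENNReal.continuous_log)

theorem nlog_anti {s t : ℝ≥0∞} (h : s ≤ t) : nlog t ≤ nlog s := by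
  apply EReal.toENNReal_le_toENNReal
  exact EReal.neg_le_neg_iff.2 (ENNReal.log_monotone h)

theorem nlog_ofReal {t : ℝ} (ht : 0 < t) : nlog (ENNReal.ofReal t) = ENNReal.ofReal (-Real.log t) := by
  rw [nlog, ENNReal.log_ofReal_of_pos ht, ← EReal.coe_neg,
    EReal.toENNReal_of_ne_top (EReal.coe_ne_top _), EReal.toReal_coe]

theorem nlog_zero : nlog 0 = ∞ := by
  rw [nlog, ENNReal.log_zero, EReal.neg_bot, EReal.toENNReal_top]

theorem nlog_mul_le {s t : ℝ≥0∞} : nlog (s * t) ≤ nlog s + nlog t := by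
  by_cases hs : s = 0
  · rw [hs, nlog_zero]
    simp
  by_cases ht : t = 0
  · rw [ht, nlog_zero]
    simp
  by_cases hs' : s = ∞
  · rw [hs', ENNReal.top_mul ht, nlog, ENNReal.log_top]
    simp
  by_cases ht' : t = ∞
  · rw [ht', ENNReal.mul_top hs, nlog, ENNReal.log_top]
    simp
  have h1 : 0 < s.toReal := ENNReal.toReal_pos hs hs'
  have h2 : 0 < t.toReal := ENNReal.toReal_pos ht ht'
  rw [← ENNReal.ofReal_toReal hs', ← ENNReal.ofReal_toReal ht', ← ENNReal.ofReal_mul h1.le,
    nlog_ofReal (mul_pos h1 h2), nlog_ofReal h1, nlog_ofReal h2, Real.log_mul h1.ne' h2.ne',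
    neg_add]
  exact ENNReal.ofReal_add_le

end Nlog

/-! ### Convexity and the limit -/

section Limit

theorem strong_aux {u v : ℝ} (hu : 0 < u) (hv : 0 < v) (hu1 : u ≤ 1) (hv1 : v ≤ 1) :
    -Real.log ((u + v) / 2) + (u - v) ^ 2 / 8 ≤ (-Real.log u + -Real.log v) / 2 := by
  have h1 : Real.log (4 * u * v / (u + v) ^ 2) ≤ 4 * u * v / (u + v) ^ 2 - 1 :=
    Real.log_le_sub_one_of_pos (by positivity)
  have h2 : Real.log (4 * u * v / (u + v) ^ 2) =
      Real.log u + Real.log v - 2 * Real.log ((u + v) / 2) := by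
    have h3 : 4 * u * v / (u + v) ^ 2 = u * v / ((u + v) / 2) ^ 2 := by
      field_simp
      ring
    rw [h3, Real.log_div (by positivity) (by positivity), Real.log_mul hu.ne' hv.ne', Real.log_pow]
    push_cast
    ring
  have h4 : 4 * u * v / (u + v) ^ 2 - 1 = -((u - v) ^ 2 / (u + v) ^ 2) := by
    field_simp
    ring
  have h5 : (u - v) ^ 2 / 4 ≤ (u - v) ^ 2 / (u + v) ^ 2 := by
    apply div_le_div_of_nonneg_left (sq_nonneg _) (by positivity)
    nlinarith
  rw [h2, h4] at h1
  linarith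

variable {Ω : Type u} [MeasurableSpace Ω] (π : Measure Ω) [IsProbabilityMeasure π]

theorem Phi_strong {ε : ℝ} (h0 : 0 < ε) (h1 : ε < 1) {a b : Ω → ℝ} (ha : Measurable a)
    (hb : Measurable b) (ha0 : ∀ x, 0 ≤ a x) (ha1 : ∀ x, a x ≤ 1) (hb0 : ∀ x, 0 ≤ b x)
    (hb1 : ∀ x, b x ≤ 1) :
    Phi π ε (fun x => (1 - 1 / 2) * a x + 1 / 2 * b x) + (1 - ε) ^ 2 / 8 * ∫ x, (a x - b x) ^ 2 ∂π ≤
      (Phi π ε a + Phi π ε b) / 2 := by
  have hi1 : Integrable (fun x => -Real.log ((1 - ε) * ((1 - 1 / 2) * a x + 1 / 2 * b x) + ε)) π := by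
    apply integrable_Phi π h0 h1 (by fun_prop)
    · intro x
      have := ha0 x
      have := hb0 x
      linarith
    · intro x
      have := ha1 x
      have := hb1 x
      linarith
  have hi2 : Integrable (fun x => (a x - b x) ^ 2) π := by
    refine Integrable.of_bound (C := 1) (by fun_prop) ?_
    refine Filter.Eventually.of_forall fun x => ?_
    rw [Real.norm_of_nonneg (sq_nonneg _)]
    have := ha0 x
    have := ha1 x
    have := hb0 x
    have := hb1 x
    nlinarith
  have hia := integrable_Phi π h0 h1 ha ha0 ha1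
  have hib := integrable_Phi π h0 h1 hb hb0 hb1
  simp only [Phi]
  rw [← integral_const_mul, ← integral_add hi1 (hi2.const_mul _), ← integral_add hia hib,
    ← integral_div]
  apply integral_mono (hi1.add (hi2.const_mul _)) ((hia.add hib).div_const _)
  intro x
  have hx1 := ha0 x
  have hx2 := ha1 x
  have hx3 := hb0 x
  have hx4 := hb1 x
  have h := strong_aux (u := (1 - ε) * a x + ε) (v := (1 - ε) * b x + ε) (by nlinarith)
    (by nlinarith) (by nlinarith) (by nlinarith)
  have e1 : ((1 - ε) * a x + ε + ((1 - ε) * b x + ε)) / 2 =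
      (1 - ε) * ((1 - 1 / 2) * a x + 1 / 2 * b x) + ε := by ring
  have e2 : ((1 - ε) * a x + ε - ((1 - ε) * b x + ε)) ^ 2 / 8 =
      (1 - ε) ^ 2 / 8 * (a x - b x) ^ 2 := by ring
  rw [e1, e2] at h
  exact h

theorem Phi_anti {ε ε' : ℝ} (h0 : 0 < ε') (h1 : ε < 1) (hle : ε' ≤ ε) {a : Ω → ℝ}
    (ha : Measurable a) (ha0 : ∀ x, 0 ≤ a x) (ha1 : ∀ x, a x ≤ 1) : Phi π ε a ≤ Phi π ε' a := by
  apply integral_mono (integrable_Phi π (by linarith) h1 ha ha0 ha1)
    (integrable_Phi π h0 (by linarith) ha ha0 ha1)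
  intro x
  have hx1 := ha0 x
  have hx2 := ha1 x
  have h2 : Real.log ((1 - ε') * a x + ε') ≤ Real.log ((1 - ε) * a x + ε) := by
    apply Real.log_le_log
    · nlinarith
    · nlinarith
  simp only
  linarith

/-- regularisation parameters -/
noncomputable def eps (n : ℕ) : ℝ := 1 / ((n : ℝ) + 2)

theorem eps_pos (n : ℕ) : 0 < eps n := by
  unfold eps
  positivity

theorem eps_le (n : ℕ) : eps n ≤ 1 / 2 := by
  unfold eps
  apply one_div_le_one_div_of_le (by norm_num)
  have : (0 : ℝ) ≤ n := Nat.cast_nonneg n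
  linarith

theorem eps_anti {n k : ℕ} (h : n ≤ k) : eps k ≤ eps n := by
  unfold eps
  apply one_div_le_one_div_of_le (by positivity)
  have : (n : ℝ) ≤ k := by exact_mod_cast h
  linarith

theorem eps_tendsto : Tendsto eps atTop (𝓝 0) := by
  have h := tendsto_one_div_add_atTop_nhds_zero_nat (𝕜 := ℝ)
  have h2 := h.comp (tendsto_add_atTop_nat 1)
  refine h2.congr fun n => ?_
  simp only [Function.comp, eps]
  push_cast
  ring

theorem exists_sequence {I : Set (Set Ω)} (hI : ∀ J ∈ I, MeasurableSet J)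
    (hne : Nonempty (Comb I)) {h' : ℝ}
    (hinf : ∀ ε : ℝ, 0 < ε → ε < 1 → ∀ e : ℝ, 0 < e → ∃ c : Comb I, Phi π ε c.f ≤ h' + e) :
    ∃ (c : ℕ → Comb I) (H : ℝ) (R : ℕ → ℝ), H ≤ h' ∧ Tendsto R atTop (𝓝 0) ∧
      (∀ n, Phi π (eps n) (c n).f ≤ H + 1 / ((n : ℝ) + 1)) ∧
      (∀ n k, n ≤ k → ∫ x, ((c n).f x - (c k).f x) ^ 2 ∂π ≤ R n) := by
  have he1 : ∀ n, eps n < 1 := fun n => by
    have := eps_le n
    linarith
  set m : ℕ → ℝ := fun n => sInf (Set.range fun c : Comb I => Phi π (eps n) c.f) with hm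
  have hbdd : ∀ n, BddBelow (Set.range fun c : Comb I => Phi π (eps n) c.f) := by
    intro n
    refine ⟨0, ?_⟩
    rintro _ ⟨c, rfl⟩
    exact Phi_nonneg π (eps_pos n) (he1 n) c.f_nonneg c.f_le_one
  have hmle : ∀ n (c : Comb I), m n ≤ Phi π (eps n) c.f := fun n c => csInf_le (hbdd n) ⟨c, rfl⟩
  have hmono : Monotone m := by
    intro n k hnk
    apply le_csInf (Set.range_nonempty _)
    rintro _ ⟨c, rfl⟩
    exact (hmle n c).trans (Phi_anti π (eps_pos k) (he1 n) (eps_anti hnk) (c.measurable_f hI)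
      c.f_nonneg c.f_le_one)
  have hmh : ∀ n, m n ≤ h' := by
    intro n
    apply le_of_forall_pos_le_add
    intro e he
    obtain ⟨c, hc⟩ := hinf (eps n) (eps_pos n) (he1 n) e he
    exact (hmle n c).trans hc
  have hbd : BddAbove (Set.range m) := ⟨h', by rintro _ ⟨n, rfl⟩; exact hmh n⟩
  set H := ⨆ n, m n with hH
  have hmH : ∀ n, m n ≤ H := fun n => le_ciSup hbd n
  have htend : Tendsto m atTop (𝓝 H) := tendsto_atTop_ciSup hmono hbd
  have hex : ∀ n : ℕ, ∃ c : Comb I, Phi π (eps n) c.f ≤ m n + 1 / ((n : ℝ) + 1) := by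
    intro n
    have hpos : (0 : ℝ) < 1 / ((n : ℝ) + 1) := by positivity
    obtain ⟨y, ⟨c, rfl⟩, hy⟩ := exists_lt_of_csInf_lt (Set.range_nonempty _)
      (lt_add_of_pos_right (m n) hpos)
    exact ⟨c, hy.le⟩
  choose c hc using hex
  refine ⟨c, H, fun n => 32 * ((H - m n) / 2 + 1 / ((n : ℝ) + 1)), ciSup_le hmh, ?_, ?_, ?_⟩
  · have h1 : Tendsto (fun n => H - m n) atTop (𝓝 (H - H)) := tendsto_const_nhds.sub htend
    rw [sub_self] at h1
    have h2 := ((h1.div_const 2).add (tendsto_one_div_add_atTop_nhds_zero_nat (𝕜 := ℝ))).const_mul 32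
    simpa using h2
  · intro n
    have := hc n
    have := hmH n
    linarith
  · intro n k hnk
    obtain ⟨c', hc'⟩ := Comb.exists_mix2 (c n) (c k) (1 / 2) (by norm_num) (by norm_num)
    have h1 := Phi_strong π (eps_pos n) (he1 n) ((c n).measurable_f hI) ((c k).measurable_f hI)
      (c n).f_nonneg (c n).f_le_one (c k).f_nonneg (c k).f_le_one
    have h2 : (fun x => (1 - 1 / 2) * (c n).f x + 1 / 2 * (c k).f x) = c'.f := by
      funext x
      rw [hc' x]
    rw [h2] at h1
    have h3 := hmle n c'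
    have h4 := Phi_anti π (eps_pos k) (he1 n) (eps_anti hnk) ((c k).measurable_f hI)
      (c k).f_nonneg (c k).f_le_one
    have h5 := hc n
    have h6 := hc k
    have h7 := hmH k
    have h8 : 1 / ((k : ℝ) + 1) ≤ 1 / ((n : ℝ) + 1) := by
      apply one_div_le_one_div_of_le (by positivity)
      have : (n : ℝ) ≤ k := by exact_mod_cast hnk
      linarith
    have h9 : 0 ≤ ∫ x, ((c n).f x - (c k).f x) ^ 2 ∂π := integral_nonneg fun x => sq_nonneg _
    have h10 : (1 : ℝ) / 32 ≤ (1 - eps n) ^ 2 / 8 := by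
      have := eps_le n
      nlinarith
    have h11 : 1 / 32 * ∫ x, ((c n).f x - (c k).f x) ^ 2 ∂π ≤
        (1 - eps n) ^ 2 / 8 * ∫ x, ((c n).f x - (c k).f x) ^ 2 ∂π :=
      mul_le_mul_of_nonneg_right h10 h9
    linarith

/-- the sequence converges almost everywhere along a subsequence -/
theorem exists_ae_limit {I : Set (Set Ω)} (hI : ∀ J ∈ I, MeasurableSet J)
    (c : ℕ → Comb I) (R : ℕ → ℝ) (hR : Tendsto R atTop (𝓝 0))
    (hc : ∀ n k, n ≤ k → ∫ x, ((c n).f x - (c k).f x) ^ 2 ∂π ≤ R n) :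
    ∃ φ : ℕ → ℕ, StrictMono φ ∧
      ∀ᵐ x ∂π, ∃ t : ℝ, Tendsto (fun n => (c (φ n)).f x) atTop (𝓝 t) := by
  obtain ⟨φ, hφ, hφR⟩ := extraction_forall_of_eventually (P := fun n k => R k < (1 / 4) ^ n) (by
    intro n
    exact hR.eventually_lt_const (by positivity))
  refine ⟨φ, hφ, ?_⟩
  apply Lp.ae_tendsto_of_cauchy_eLpNorm (p := 2) (f := fun n => (c (φ n)).f)
    (B := fun n => ENNReal.ofReal ((1 / 2) ^ n))
  · intro n
    exact ((c (φ n)).measurable_f hI).aestronglyMeasurable
  · norm_num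
  · rw [← ENNReal.ofReal_tsum_of_nonneg]
    · exact ENNReal.ofReal_ne_top
    · intro n
      positivity
    · exact summable_geometric_of_lt_one (by norm_num) (by norm_num)
  · have key : ∀ N n m : ℕ, N ≤ n → n ≤ m →
        eLpNorm ((c (φ n)).f - (c (φ m)).f) 2 π < ENNReal.ofReal ((1 / 2) ^ N) := by
      intro N n m hNn hnm
      have hmem : MemLp ((c (φ n)).f - (c (φ m)).f) 2 π := by
        refine MemLp.of_bound
          (((c (φ n)).measurable_f hI).sub ((c (φ m)).measurable_f hI)).aestronglyMeasurable 1 ?_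
        refine Filter.Eventually.of_forall fun x => ?_
        rw [Pi.sub_apply, Real.norm_eq_abs, abs_le]
        have h1 := (c (φ n)).f_nonneg x
        have h2 := (c (φ n)).f_le_one x
        have h3 := (c (φ m)).f_nonneg x
        have h4 := (c (φ m)).f_le_one x
        constructor <;> linarith
      rw [hmem.eLpNorm_eq_integral_rpow_norm (by norm_num) (by norm_num)]
      apply (ENNReal.ofReal_lt_ofReal_iff (by positivity)).2
      have h5 : ∫ x, ‖((c (φ n)).f - (c (φ m)).f) x‖ ^ (2 : ℝ≥0∞).toReal ∂π =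
          ∫ x, ((c (φ n)).f x - (c (φ m)).f x) ^ 2 ∂π := by
        apply integral_congr_ae
        refine Filter.Eventually.of_forall fun x => ?_
        simp only [ENNReal.toReal_ofNat, Pi.sub_apply]
        rw [Real.rpow_two, Real.norm_eq_abs, sq_abs]
      rw [h5]
      have h6 : ∫ x, ((c (φ n)).f x - (c (φ m)).f x) ^ 2 ∂π < (1 / 4) ^ N := by
        refine (hc _ _ (hφ.monotone hnm)).trans_lt ((hφR n).trans_le ?_)
        exact pow_le_pow_of_le_one (by norm_num) (by norm_num) hNn
      have h7 : 0 ≤ ∫ x, ((c (φ n)).f x - (c (φ m)).f x) ^ 2 ∂π := integral_nonneg fun x => sq_nonneg _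
      have h8 : ((1 : ℝ) / 4) ^ N = ((1 / 2) ^ N) ^ 2 := by
        rw [← pow_mul, mul_comm, pow_mul]
        norm_num
      rw [h8] at h6
      have h9 : (∫ x, ((c (φ n)).f x - (c (φ m)).f x) ^ 2 ∂π) ^ (2 : ℝ≥0∞).toReal⁻¹ =
          Real.sqrt (∫ x, ((c (φ n)).f x - (c (φ m)).f x) ^ 2 ∂π) := by
        rw [Real.sqrt_eq_rpow]
        norm_num
      rw [h9, Real.sqrt_lt' (by positivity)]
      exact h6
    intro N n m hn hm
    rcases le_total n m with h | h
    · exact key N n m hn h
    · rw [eLpNorm_sub_comm]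
      exact key N m n hm h

omit [MeasurableSpace Ω] in
theorem val_eq {I : Set (Set Ω)} (c : Comb I) (x : Ω) : c.val x = ENNReal.ofReal (c.f x) := by
  rw [Comb.f, ENNReal.ofReal_toReal (c.val_ne_top x)]

theorem exists_comb {I : Set (Set Ω)} (hI : ∀ J ∈ I, MeasurableSet J)
    (hne : Nonempty (Comb I)) {h' : ℝ}
    (hinf : ∀ ε : ℝ, 0 < ε → ε < 1 → ∀ e : ℝ, 0 < e → ∃ c : Comb I, Phi π ε c.f ≤ h' + e)
    {e : ℝ} (he : 0 < e) : ∃ c : Comb I, phi π c.val ≤ ENNReal.ofReal (h' + e) := by
  obtain ⟨c, H, R, hH, hR, hc, hcR⟩ := exists_sequence π hI hne hinf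
  obtain ⟨φ, hφ, hlim⟩ := exists_ae_limit π hI c R hR hcR
  have hφt : Tendsto φ atTop atTop := hφ.tendsto_atTop
  have he1 : ∀ n, eps n < 1 := fun n => by
    have := eps_le n
    linarith
  -- the regularised integrands
  set b : ℕ → Ω → ℝ := fun n x => (1 - eps (φ n)) * (c (φ n)).f x + eps (φ n) with hb
  have hbpos : ∀ n x, 0 < b n x := fun n x => by
    have h1 := eps_pos (φ n)
    have h2 := he1 (φ n)
    have h3 := (c (φ n)).f_nonneg x
    simp only [hb]
    nlinarith
  set g : ℕ → Ω → ℝ≥0∞ := fun n x => nlog (ENNReal.ofReal (b n x)) with hg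
  have hgm : ∀ n, Measurable (g n) := fun n => by
    apply nlog_continuous.measurable.comp
    apply ENNReal.measurable_ofReal.comp
    have := (c (φ n)).measurable_f hI
    fun_prop
  set F : Ω → ℝ≥0∞ := fun x => liminf (fun n => g n x) atTop with hF
  have hFm : Measurable F := Measurable.liminf hgm
  -- Fatou
  have hgint : ∀ n, ∫⁻ x, g n x ∂π ≤ ENNReal.ofReal (H + 1 / ((φ n : ℝ) + 1)) := by
    intro n
    have h1 : ∀ x, g n x = ENNReal.ofReal (-Real.log (b n x)) := fun x => nlog_ofReal (hbpos n x)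
    simp_rw [h1]
    rw [← ofReal_integral_eq_lintegral_ofReal
      (integrable_Phi π (eps_pos _) (he1 _) ((c (φ n)).measurable_f hI) (c (φ n)).f_nonneg
        (c (φ n)).f_le_one)]
    · exact ENNReal.ofReal_le_ofReal (hc (φ n))
    · refine Filter.Eventually.of_forall fun x => ?_
      have h3 := (c (φ n)).f_le_one x
      have h4 : b n x ≤ 1 := by
        simp only [hb]
        have := he1 (φ n)
        nlinarith
      have := Real.log_nonpos (hbpos n x).le h4
      simp only [Pi.zero_apply]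
      linarith
  have hFint : ∫⁻ x, F x ∂π ≤ ENNReal.ofReal H := by
    refine (lintegral_liminf_le hgm).trans ?_
    have h1 : Tendsto (fun n => ENNReal.ofReal (H + 1 / ((φ n : ℝ) + 1))) atTop
        (𝓝 (ENNReal.ofReal (H + 0))) := by
      apply ENNReal.tendsto_ofReal
      apply tendsto_const_nhds.add
      exact (tendsto_one_div_add_atTop_nhds_zero_nat (𝕜 := ℝ)).comp hφt
    rw [add_zero] at h1
    calc liminf (fun n => ∫⁻ x, g n x ∂π) atTop ≤
          liminf (fun n => ENNReal.ofReal (H + 1 / ((φ n : ℝ) + 1))) atTop :=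
          liminf_le_liminf (Filter.Eventually.of_forall hgint)
      _ = ENNReal.ofReal H := h1.liminf_eq
  have hFfin : ∀ᵐ x ∂π, F x < ∞ := by
    apply ae_lt_top hFm
    exact ne_top_of_le_ne_top ENNReal.ofReal_ne_top hFint
  -- good sets
  set η : ℝ := e / 4 with hη
  have hη0 : 0 < η := by positivity
  set G : ℕ → Set Ω := fun n => {x | nlog ((c (φ n)).val x) ≤ F x + ENNReal.ofReal η} with hG
  have hvm : ∀ n, Measurable fun x => nlog ((c (φ n)).val x) := fun n =>
    nlog_continuous.measurable.comp ((c (φ n)).measurable_val hI)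
  have hGm : ∀ n, MeasurableSet (G n) := fun n =>
    measurableSet_le (hvm n) (hFm.add measurable_const)
  have hGev : ∀ᵐ x ∂π, ∀ᶠ n in atTop, x ∈ (G n)ᶜ ↔ x ∈ (∅ : Set Ω) := by
    filter_upwards [hlim, hFfin] with x hx hxF
    obtain ⟨t, ht⟩ := hx
    have h1 : Tendsto (fun n => b n x) atTop (𝓝 ((1 - 0) * t + 0)) := by
      have h2 : Tendsto (fun n => eps (φ n)) atTop (𝓝 0) := eps_tendsto.comp hφt
      exact ((tendsto_const_nhds.sub h2).mul ht).add h2
    have h3 : Tendsto (fun n => g n x) atTop (𝓝 (nlog (ENNReal.ofReal ((1 - 0) * t + 0)))) :=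
      (nlog_continuous.tendsto _).comp (ENNReal.tendsto_ofReal h1)
    have h4 : F x = nlog (ENNReal.ofReal t) := by
      rw [hF]
      simp only
      rw [h3.liminf_eq]
      congr 2
      ring
    have h5 : Tendsto (fun n => nlog ((c (φ n)).val x)) atTop (𝓝 (F x)) := by
      rw [h4]
      simp_rw [val_eq]
      exact (nlog_continuous.tendsto _).comp (ENNReal.tendsto_ofReal ht)
    have h6 : F x < F x + ENNReal.ofReal η := by
      apply ENNReal.lt_add_right hxF.ne
      exact (ENNReal.ofReal_pos.2 hη0).ne'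
    filter_upwards [h5.eventually_lt_const h6] with n hn
    simp only [Set.mem_compl_iff, Set.mem_empty_iff_false, iff_false, not_not]
    exact hn.le
  have hGt : Tendsto (fun n => π (G n)ᶜ) atTop (𝓝 0) := by
    have := tendsto_measure_of_ae_tendsto_indicator_of_isFiniteMeasure atTop
      MeasurableSet.empty (fun n => (hGm n).compl) hGev
    rwa [measure_empty] at this
  -- weights
  set δ : ℝ := 1 - Real.exp (-(e / 4)) with hδ
  have hexp1 : Real.exp (-(e / 4)) < 1 := by
    rw [Real.exp_lt_one_iff]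
    linarith
  have hδ0 : 0 < δ := by linarith
  have hδ1 : δ < 1 := by
    have := Real.exp_pos (-(e / 4))
    linarith
  set Q : ℕ → ℝ := fun i => δ * (1 / 2) ^ (i + 1) with hQ
  have hQ0 : ∀ i, 0 < Q i := fun i => by positivity
  have hQ1 : ∀ i, Q i ≤ 1 / 2 := fun i => by
    have h1 : ((1 : ℝ) / 2) ^ (i + 1) ≤ (1 / 2) ^ 1 :=
      pow_le_pow_of_le_one (by norm_num) (by norm_num) (by omega)
    rw [pow_one] at h1
    have h2 : (0 : ℝ) < (1 / 2) ^ (i + 1) := by positivity
    simp only [hQ]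
    nlinarith
  have hψ : ∀ i : ℕ, ∃ n, nlog (ENNReal.ofReal (Q i)) * π (G n)ᶜ ≤
      ENNReal.ofReal (e / 2 * (1 / 2) ^ (i + 1)) := by
    intro i
    have h1 : nlog (ENNReal.ofReal (Q i)) ≠ ∞ := by
      rw [nlog_ofReal (hQ0 i)]
      exact ENNReal.ofReal_ne_top
    have h2 : Tendsto (fun n => nlog (ENNReal.ofReal (Q i)) * π (G n)ᶜ) atTop
        (𝓝 (nlog (ENNReal.ofReal (Q i)) * 0)) := ENNReal.Tendsto.const_mul hGt (Or.inr h1)
    rw [mul_zero] at h2
    have h3 : (0 : ℝ≥0∞) < ENNReal.ofReal (e / 2 * (1 / 2) ^ (i + 1)) := by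
      rw [ENNReal.ofReal_pos]
      positivity
    exact (h2.eventually_lt_const h3).exists.imp fun n hn => hn.le
  choose ψ hψ using hψ
  -- the combination
  set W : ℕ → ℝ≥0∞ := fun i => Nat.casesOn i (ENNReal.ofReal (1 - δ)) fun k =>
    ENNReal.ofReal (Q k) with hW
  have hW0 : W 0 = ENNReal.ofReal (1 - δ) := rfl
  have hWs : ∀ k, W (k + 1) = ENNReal.ofReal (Q k) := fun k => rfl
  have hgeo : ∑' k : ℕ, ((1 : ℝ) / 2) ^ (k + 1) = 1 := by
    have h1 : ∀ k : ℕ, ((1 : ℝ) / 2) ^ (k + 1) = 1 / 2 * (1 / 2) ^ k := fun k => by ring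
    simp_rw [h1]
    rw [tsum_mul_left, tsum_geometric_two]
    norm_num
  have hsumm : Summable fun k : ℕ => ((1 : ℝ) / 2) ^ (k + 1) := by
    have h1 : ∀ k : ℕ, ((1 : ℝ) / 2) ^ (k + 1) = 1 / 2 * (1 / 2) ^ k := fun k => by ring
    simp_rw [h1]
    exact summable_geometric_two.mul_left _
  have hWsum : ∑' i, W i = 1 := by
    rw [tsum_eq_zero_add' ENNReal.summable, hW0]
    simp_rw [hWs]
    rw [← ENNReal.ofReal_tsum_of_nonneg (fun k => (hQ0 k).le) (hsumm.mul_left δ)]
    simp only [hQ]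
    rw [tsum_mul_left, hgeo, mul_one, ← ENNReal.ofReal_add (by linarith) hδ0.le]
    simp
  obtain ⟨c', hc'⟩ := Comb.exists_mix (fun i => c (φ (ψ i))) W hWsum
  refine ⟨c', ?_⟩
  -- pointwise bound
  have hpt : ∀ x, nlog (c'.val x) ≤ F x + ENNReal.ofReal η + nlog (W 0) +
      ∑' k, ((G (ψ k))ᶜ).indicator (fun _ => nlog (W (k + 1))) x := by
    intro x
    have hterm : ∀ i, x ∈ G (ψ i) → nlog (c'.val x) ≤ F x + ENNReal.ofReal η + nlog (W i) := by
      intro i hi
      have h1 : W i * (c (φ (ψ i))).val x ≤ c'.val x := by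
        rw [hc' x]
        exact ENNReal.le_tsum i
      calc nlog (c'.val x) ≤ nlog (W i * (c (φ (ψ i))).val x) := nlog_anti h1
        _ ≤ nlog (W i) + nlog ((c (φ (ψ i))).val x) := nlog_mul_le
        _ ≤ nlog (W i) + (F x + ENNReal.ofReal η) := by
            gcongr
            exact hi
        _ = _ := by ring
    by_cases hex : ∃ i, x ∈ G (ψ i)
    · classical
      have h1 := Nat.find_spec hex
      rcases hi : Nat.find hex with _ | k
      · rw [hi] at h1
        exact (hterm 0 h1).trans le_self_add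
      · rw [hi] at h1
        have h2 : x ∉ G (ψ k) := Nat.find_min hex (by omega)
        have h3 : nlog (W (k + 1)) ≤
            ∑' k, ((G (ψ k))ᶜ).indicator (fun _ => nlog (W (k + 1))) x := by
          refine le_trans ?_ (ENNReal.le_tsum k)
          rw [Set.indicator_of_mem h2]
        calc nlog (c'.val x) ≤ F x + ENNReal.ofReal η + nlog (W (k + 1)) := hterm _ h1
          _ ≤ F x + ENNReal.ofReal η +
            ∑' k, ((G (ψ k))ᶜ).indicator (fun _ => nlog (W (k + 1))) x := by gcongr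
          _ ≤ _ := add_le_add le_self_add le_rfl
    · push Not at hex
      have h1 : ∑' k, ((G (ψ k))ᶜ).indicator (fun _ => nlog (W (k + 1))) x = ∞ := by
        rw [eq_top_iff]
        have h2 : nlog (ENNReal.ofReal (1 / 2)) ≠ 0 := by
          rw [nlog_ofReal (by norm_num)]
          have : 0 < -Real.log (1 / 2) := by
            have := Real.log_neg (by norm_num : (0 : ℝ) < 1 / 2) (by norm_num)
            linarith
          exact (ENNReal.ofReal_pos.2 this).ne'
        rw [← ENNReal.tsum_const_eq_top_of_ne_zero (α := ℕ) h2]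
        apply ENNReal.tsum_le_tsum
        intro k
        rw [Set.indicator_of_mem (hex k), hWs]
        exact nlog_anti (ENNReal.ofReal_le_ofReal (hQ1 k))
      rw [h1]
      simp
  -- integrate
  have hlint : phi π c'.val ≤ ENNReal.ofReal H + ENNReal.ofReal η + nlog (W 0) +
      ∑' k, nlog (W (k + 1)) * π (G (ψ k))ᶜ := by
    calc phi π c'.val ≤ ∫⁻ x, (F x + ENNReal.ofReal η + nlog (W 0) +
          ∑' k, ((G (ψ k))ᶜ).indicator (fun _ => nlog (W (k + 1))) x) ∂π := lintegral_mono hpt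
      _ = ∫⁻ x, F x ∂π + ENNReal.ofReal η + nlog (W 0) +
          ∑' k, nlog (W (k + 1)) * π (G (ψ k))ᶜ := by
          have m1 : Measurable fun x => F x + ENNReal.ofReal η := hFm.add measurable_const
          have m2 : Measurable fun x => F x + ENNReal.ofReal η + nlog (W 0) :=
            m1.add measurable_const
          rw [lintegral_add_left m2, lintegral_add_left m1, lintegral_add_left hFm,
            lintegral_tsum]
          · simp only [lintegral_const, measure_univ, mul_one]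
            congr 1
            congr 1
            funext k
            rw [lintegral_indicator (hGm _).compl, lintegral_const, Measure.restrict_apply_univ]
          · intro k
            exact (measurable_const.indicator (hGm _).compl).aemeasurable
      _ ≤ _ := by gcongr
  have hlast : ∑' k, nlog (W (k + 1)) * π (G (ψ k))ᶜ ≤ ENNReal.ofReal (e / 2) := by
    calc ∑' k, nlog (W (k + 1)) * π (G (ψ k))ᶜ ≤
          ∑' k : ℕ, ENNReal.ofReal (e / 2 * (1 / 2) ^ (k + 1)) := ENNReal.tsum_le_tsum hψ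
      _ = ENNReal.ofReal (e / 2) := by
          rw [← ENNReal.ofReal_tsum_of_nonneg (fun k => by positivity) (hsumm.mul_left _),
            tsum_mul_left, hgeo, mul_one]
  have hW0' : nlog (W 0) = ENNReal.ofReal (e / 4) := by
    rw [hW0, nlog_ofReal (by linarith)]
    have : 1 - δ = Real.exp (-(e / 4)) := by ring
    rw [this, Real.log_exp, neg_neg]
  have hHnn : 0 ≤ h' := by
    by_contra hcon
    push Not at hcon
    obtain ⟨c₁, hc₁⟩ := hinf (1 / 2) (by norm_num) (by norm_num) (-h' / 2) (by linarith)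
    have := Phi_nonneg π (ε := 1 / 2) (by norm_num) (by norm_num) c₁.f_nonneg c₁.f_le_one
    linarith
  calc phi π c'.val ≤ ENNReal.ofReal H + ENNReal.ofReal η + nlog (W 0) +
        ∑' k, nlog (W (k + 1)) * π (G (ψ k))ᶜ := hlint
    _ ≤ ENNReal.ofReal h' + ENNReal.ofReal η + ENNReal.ofReal (e / 4) + ENNReal.ofReal (e / 2) := by
        rw [hW0']
        gcongr
    _ = ENNReal.ofReal (h' + e) := by
        rw [← ENNReal.ofReal_add hHnn hη0.le, ← ENNReal.ofReal_add (by linarith) (by linarith),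
          ← ENNReal.ofReal_add (by linarith) (by linarith)]
        congr 1
        rw [hη]
        ring

end Limit

/-! ### The theorem -/

section Main

variable {Ω : Type u} [MeasurableSpace Ω] (π : Measure Ω) [IsProbabilityMeasure π]

omit [IsProbabilityMeasure π] in
theorem Hcnt_le_comb {I : Set (Set Ω)} (c : Comb I) : Hcnt I π ≤ phi π c.val :=
  (iInf_le _ c.J).trans ((iInf_le _ c.mem).trans ((iInf_le _ c.q).trans (iInf_le _ c.sum)))

/-- The bound by countable combinations is at most the lower covering entropy. -/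
theorem Hcnt_le_lowerH {I : Set (Set Ω)} (hI : ∀ J ∈ I, MeasurableSet J) {lam : ℝ}
    (hlam : lam < 1) : (Hcnt I π : EReal) ≤ lowerH I π lam := by
  by_contra hcon
  push Not at hcon
  obtain ⟨h', h1, h2⟩ := EReal.lt_iff_exists_real_btwn.1 hcon
  obtain ⟨h'', h3, h4⟩ := EReal.lt_iff_exists_real_btwn.1 h2
  have h34 : h' < h'' := by exact_mod_cast h3
  have hne := nonempty_comb π hlam h1
  obtain ⟨c, hc⟩ := exists_comb π hI hne (h' := h')
    (fun ε h0 h1' e he => inf_le π hI hlam h1 h0 h1' he) (e := h'' - h') (by linarith)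
  have h5 : h' + (h'' - h') = h'' := by ring
  rw [h5] at hc
  have h6 : (Hcnt I π : EReal) ≤ ((ENNReal.ofReal h'' : ℝ≥0∞) : EReal) := by
    exact_mod_cast (Hcnt_le_comb π c).trans hc
  have h7 : 0 ≤ h'' := by
    by_contra hneg
    push Not at hneg
    rw [ENNReal.ofReal_of_nonpos hneg.le] at h6
    have h8 : (0 : EReal) ≤ lowerH I π lam := by
      apply le_liminf_of_le (by isBoundedDefault)
      filter_upwards [eventually_gt_atTop 0] with l hl
      have hl1 : (0 : EReal) ≤ (l : EReal) := by exact_mod_cast hl.le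
      apply EReal.div_nonneg _ hl1
      rw [ENNReal.zero_le_log_iff]
      refine le_iInf fun m => le_iInf fun hm => ?_
      obtain ⟨J, hJ, hcov⟩ := hm
      have hm0 : 0 < m := by
        rcases Nat.eq_zero_or_pos m with h | h
        · subst h
          simp only [Set.iUnion_of_empty, measure_empty, nonpos_iff_eq_zero,
            ENNReal.ofReal_eq_zero] at hcov
          linarith
        · exact h
      exact_mod_cast hm0
    have h9 : (h' : EReal) < 0 := by
      have : h' < 0 := by linarith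
      exact_mod_cast this
    exact absurd (h8.trans_lt h1) (not_lt.2 h9.le)
  rw [EReal.coe_ennreal_ofReal, max_eq_left h7] at h6
  exact absurd h4 (not_lt.2 h6)

/-- Countable combinations come from compatible measures. -/
theorem Hfull_le_Hcnt (I : Set (Set Ω)) (hI : ∀ J ∈ I, MeasurableSet J) :
    Hfull I π ≤ Hcnt I π := by
  refine le_iInf fun J => le_iInf fun mem => le_iInf fun q => le_iInf fun hq => ?_
  let ms : MeasurableSpace I := ⊤
  set β : Measure I := Measure.sum (fun k => q k • Measure.dirac (⟨J k, mem k⟩ : I)) with hβ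
  have hβapp : ∀ S : Set I, β S = ∑' k, q k * S.indicator 1 (⟨J k, mem k⟩ : I) := by
    intro S
    rw [hβ, Measure.sum_apply _ (MeasurableSpace.measurableSet_top)]
    congr 1
    funext k
    rw [Measure.smul_apply, Measure.dirac_apply' _ (MeasurableSpace.measurableSet_top),
      smul_eq_mul]
  have hprob : IsProbabilityMeasure β := by
    constructor
    rw [hβapp]
    simpa using hq
  have hnull : NullMeasurableSet {p : I × Ω | p.2 ∈ (p.1 : Set Ω)} (β.prod π) := by
    set S : Set I := Set.range fun k => (⟨J k, mem k⟩ : I) with hS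
    have h1 : {p : I × Ω | p.2 ∈ (p.1 : Set Ω)} =
        (⋃ k, ({(⟨J k, mem k⟩ : I)} : Set I) ×ˢ J k) ∪
          ({p : I × Ω | p.2 ∈ (p.1 : Set Ω)} ∩ Sᶜ ×ˢ Set.univ) := by
      ext ⟨A, x⟩
      simp only [Set.mem_ofPred_eq, Set.mem_union, Set.mem_iUnion, Set.mem_prod,
        Set.mem_singleton_iff, Set.mem_inter_iff, Set.mem_compl_iff, Set.mem_univ, and_true]
      constructor
      · intro hx
        by_cases hA : A ∈ S
        · left
          obtain ⟨k, hk⟩ := hA
          refine ⟨k, hk.symm, ?_⟩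
          rw [← hk] at hx
          exact hx
        · right
          exact ⟨hx, hA⟩
      · rintro (⟨k, hk, hx⟩ | ⟨hx, -⟩)
        · rw [hk]
          exact hx
        · exact hx
    rw [h1]
    apply NullMeasurableSet.union
    · apply MeasurableSet.nullMeasurableSet
      apply MeasurableSet.iUnion
      intro k
      exact (MeasurableSpace.measurableSet_top).prod (hI _ (mem k))
    · apply NullMeasurableSet.of_null
      apply measure_mono_null Set.inter_subset_right
      rw [Measure.prod_prod, hβapp]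
      have h2 : ∀ k, q k * (Sᶜ).indicator (1 : I → ℝ≥0∞) (⟨J k, mem k⟩ : I) = 0 := by
        intro k
        rw [Set.indicator_of_notMem, mul_zero]
        simp [hS]
      simp_rw [h2]
      simp
  refine (iInf_le _ ms).trans ((iInf_le _ β).trans ((iInf_le _ hprob).trans
    ((iInf_le _ hnull).trans (le_of_eq ?_))))
  congr 1
  funext x
  rw [hβapp]
  congr 1

theorem aemeasurable_section {α β : Type*} [MeasurableSpace α] [MeasurableSpace β]
    {μ : Measure α} {ν : Measure β} [SFinite ν] {f : α × β → ℝ≥0∞}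
    (hf : AEMeasurable f (μ.prod ν)) : ∀ᵐ x ∂μ, AEMeasurable (fun y => f (x, y)) ν := by
  filter_upwards [Measure.ae_ae_of_ae_prod hf.ae_eq_mk] with x hx
  exact ⟨fun y => hf.mk f (x, y), hf.measurable_mk.comp measurable_prodMk_left, hx⟩

/-- A compatible measure does not do better than countable combinations. -/
theorem Hcnt_le_Hfull (I : Set (Set Ω)) (hI : ∀ J ∈ I, MeasurableSet J) :
    Hcnt I π ≤ Hfull I π := by
  refine le_iInf fun ms => le_iInf fun β => le_iInf fun hprob => le_iInf fun hnull => ?_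
  set a : Ω → ℝ≥0∞ := fun x => β {J | x ∈ (J : Set Ω)} with ha
  by_cases hfin : phi π a = ∞
  · rw [hfin]
    exact le_top
  have hne : Nonempty (Comb I) := by
    have h1 : Nonempty I := by
      by_contra h
      rw [not_nonempty_iff] at h
      have h2 := hprob.measure_univ
      rw [Set.eq_empty_of_isEmpty (Set.univ : Set I), measure_empty] at h2
      exact zero_ne_one h2
    obtain ⟨⟨J, hJ⟩⟩ := h1
    obtain ⟨c, -⟩ := Comb.exists_single J hJ
    exact ⟨c⟩
  set h' : ℝ := (phi π a).toReal with hh'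
  have hinf : ∀ ε : ℝ, 0 < ε → ε < 1 → ∀ e : ℝ, 0 < e → ∃ c : Comb I, Phi π ε c.f ≤ h' + e := by
    intro ε h0 h1 e he
    have h1' : 0 < 1 - ε := by linarith
    set τ := min (ε / 2) (e * (1 - ε) / (1 + 2 / ε ^ 2)) with hτ
    have hτ0 : 0 < τ := lt_min (by linarith) (by positivity)
    have hτ1 : τ ≤ ε / 2 := min_le_left _ _
    have hτ2 : τ * (1 + 2 / ε ^ 2) / (1 - ε) ≤ e := by
      have h2 : τ ≤ e * (1 - ε) / (1 + 2 / ε ^ 2) := min_le_right _ _
      rw [le_div_iff₀ (by positivity)] at h2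
      rw [div_le_iff₀ h1']
      linarith
    obtain ⟨c, hc⟩ := exists_near_min π hne h0 h1 (pow_pos hτ0 2)
    have hA := kkt π hI h0 h1 hτ0 hτ1 c hc
    refine ⟨c, ?_⟩
    have hmeas := c.measurable_f hI
    set b : Ω → ℝ := fun x => (1 - ε) * c.f x + ε with hb
    have hbx : ∀ x, ε ≤ b x := fun x => by
      have := c.f_nonneg x
      simp only [hb]
      nlinarith
    have hbx1 : ∀ x, b x ≤ 1 := fun x => by
      have := c.f_le_one x
      simp only [hb]
      nlinarith
    have hbpos : ∀ x, 0 < b x := fun x => lt_of_lt_of_le h0 (hbx x)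
    have hbm : Measurable b := by fun_prop
    -- the pointwise inequality
    have hale : ∀ x, a x ≤ 1 := fun x => prob_le_one
    have hpt : ∀ x, ENNReal.ofReal (-Real.log (b x)) + 1 ≤
        nlog (a x) + a x * ENNReal.ofReal (b x)⁻¹ := by
      intro x
      by_cases hax : a x = 0
      · rw [hax, nlog_zero]
        simp
      · have hax' : a x ≠ ∞ := ne_top_of_le_ne_top ENNReal.one_ne_top (hale x)
        have hp : 0 < (a x).toReal := ENNReal.toReal_pos hax hax'
        have hp1 : (a x).toReal ≤ 1 := by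
          have := ENNReal.toReal_mono ENNReal.one_ne_top (hale x)
          simpa using this
        rw [← ENNReal.ofReal_toReal hax', nlog_ofReal hp, ← ENNReal.ofReal_one,
          ← ENNReal.ofReal_add (by
            have := Real.log_nonpos (hbpos x).le (hbx1 x)
            linarith) zero_le_one, ← ENNReal.ofReal_mul hp.le,
          ← ENNReal.ofReal_add (by
            have := Real.log_nonpos hp.le hp1
            linarith) (mul_nonneg hp.le (inv_pos.2 (hbpos x)).le)]
        apply ENNReal.ofReal_le_ofReal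
        have h3 := Real.log_le_sub_one_of_pos (mul_pos hp (inv_pos.2 (hbpos x)))
        rw [Real.log_mul hp.ne' (inv_pos.2 (hbpos x)).ne', Real.log_inv] at h3
        linarith
    -- Tonelli
    set E : Set (I × Ω) := {p : I × Ω | p.2 ∈ (p.1 : Set Ω)} with hE
    have hEi : AEMeasurable (E.indicator (fun _ => (1 : ℝ≥0∞))) (β.prod π) :=
      (aemeasurable_indicator_const_iff (1 : ℝ≥0∞)).2 hnull
    have hEm : AEMeasurable (fun p : I × Ω => E.indicator (fun _ => (1 : ℝ≥0∞)) p *
        ENNReal.ofReal (b p.2)⁻¹) (β.prod π) :=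
      hEi.mul (ENNReal.measurable_ofReal.comp (hbm.inv.comp measurable_snd)).aemeasurable
    have hsec : ∀ᵐ x ∂π, a x * ENNReal.ofReal (b x)⁻¹ =
        ∫⁻ J, E.indicator (fun _ => (1 : ℝ≥0∞)) (J, x) * ENNReal.ofReal (b x)⁻¹ ∂β := by
      have h2 : ∀ᵐ x ∂π, AEMeasurable
          (fun J : I => E.indicator (fun _ => (1 : ℝ≥0∞)) (J, x)) β :=
        aemeasurable_section hEi.prod_swap
      filter_upwards [h2] with x hx
      rw [lintegral_mul_const' _ _ ENNReal.ofReal_ne_top]
      congr 1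
      have h3 : (fun J : I => E.indicator (fun _ => (1 : ℝ≥0∞)) (J, x)) =
          ({J : I | x ∈ (J : Set Ω)}).indicator (fun _ => (1 : ℝ≥0∞)) := by
        funext J
        by_cases h : x ∈ (J : Set Ω)
        · rw [Set.indicator_of_mem (show J ∈ {J : I | x ∈ (J : Set Ω)} from h),
            Set.indicator_of_mem (show (J, x) ∈ E from h)]
        · rw [Set.indicator_of_notMem (show J ∉ {J : I | x ∈ (J : Set Ω)} from h),
            Set.indicator_of_notMem (show (J, x) ∉ E from h)]
      rw [h3] at hx ⊢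
      rw [lintegral_indicator_const₀ ((aemeasurable_indicator_const_iff (1 : ℝ≥0∞)).1 hx), one_mul]
    have ham : AEMeasurable (fun x => a x * ENNReal.ofReal (b x)⁻¹) π := by
      refine AEMeasurable.congr ?_ (hsec.mono fun x hx => hx.symm)
      exact hEm.prod_swap.lintegral_prod_right'
    have hton : ∫⁻ x, a x * ENNReal.ofReal (b x)⁻¹ ∂π ≤ ENNReal.ofReal (1 + e) := by
      rw [lintegral_congr_ae hsec]
      have hsw := lintegral_lintegral_swap (μ := β) (ν := π)
        (f := fun J x => E.indicator (fun _ => (1 : ℝ≥0∞)) (J, x) * ENNReal.ofReal (b x)⁻¹) hEm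
      rw [← hsw]
      have hin : ∀ J : I, ∫⁻ x, E.indicator (fun _ => (1 : ℝ≥0∞)) (J, x) *
          ENNReal.ofReal (b x)⁻¹ ∂π ≤ ENNReal.ofReal (1 + e) := by
        intro J
        have hJm := hI _ J.2
        have h3 : ∀ x, E.indicator (fun _ => (1 : ℝ≥0∞)) (J, x) * ENNReal.ofReal (b x)⁻¹ =
            ENNReal.ofReal ((J : Set Ω).indicator 1 x * (b x)⁻¹) := by
          intro x
          by_cases h : x ∈ (J : Set Ω)
          · rw [Set.indicator_of_mem (show (J, x) ∈ E from h), Set.indicator_of_mem h]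
            simp
          · rw [Set.indicator_of_notMem (show (J, x) ∉ E from h), Set.indicator_of_notMem h]
            simp
        simp_rw [h3]
        have hind : ∀ x, 0 ≤ (J : Set Ω).indicator (1 : Ω → ℝ) x ∧
            (J : Set Ω).indicator (1 : Ω → ℝ) x ≤ 1 := by
          intro x
          by_cases h : x ∈ (J : Set Ω)
          · simp [h]
          · simp [h]
        have hint4 : Integrable (fun x => (J : Set Ω).indicator 1 x * (b x)⁻¹) π := by
          refine Integrable.of_bound (C := ε⁻¹)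
            ((measurable_one.indicator hJm).mul hbm.inv).aestronglyMeasurable ?_
          refine Filter.Eventually.of_forall fun x => ?_
          obtain ⟨h5, h6⟩ := hind x
          have h7 : (b x)⁻¹ ≤ ε⁻¹ := inv_anti₀ h0 (hbx x)
          have h8 : 0 < (b x)⁻¹ := inv_pos.2 (hbpos x)
          rw [Real.norm_of_nonneg (mul_nonneg h5 h8.le)]
          nlinarith
        rw [← ofReal_integral_eq_lintegral_ofReal hint4
          (Filter.Eventually.of_forall fun x =>
            mul_nonneg (hind x).1 (inv_pos.2 (hbpos x)).le)]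
        apply ENNReal.ofReal_le_ofReal
        exact (hA _ J.2).trans (by linarith)
      calc ∫⁻ J, ∫⁻ x, E.indicator (fun _ => (1 : ℝ≥0∞)) (J, x) * ENNReal.ofReal (b x)⁻¹ ∂π ∂β ≤
            ∫⁻ _J : I, ENNReal.ofReal (1 + e) ∂β := lintegral_mono hin
        _ = ENNReal.ofReal (1 + e) := by simp
    have hint := lintegral_mono (μ := π) hpt
    rw [lintegral_add_right _ measurable_const, lintegral_add_right' _ ham,
      ← ofReal_integral_eq_lintegral_ofReal
        (integrable_Phi π h0 h1 hmeas c.f_nonneg c.f_le_one)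
        (Filter.Eventually.of_forall fun x => by
          have := Real.log_nonpos (hbpos x).le (hbx1 x)
          simp only [Pi.zero_apply]
          linarith)] at hint
    have h4 : ENNReal.ofReal (Phi π ε c.f) + 1 ≤ ENNReal.ofReal (h' + (1 + e)) := by
      calc ENNReal.ofReal (Phi π ε c.f) + 1 ≤
            phi π a + ∫⁻ x, a x * ENNReal.ofReal (b x)⁻¹ ∂π := by
            simpa [Phi, phi] using hint
        _ ≤ ENNReal.ofReal h' + ENNReal.ofReal (1 + e) := by
            rw [hh', ENNReal.ofReal_toReal hfin]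
            gcongr
        _ = ENNReal.ofReal (h' + (1 + e)) := by
            rw [ENNReal.ofReal_add ENNReal.toReal_nonneg (by linarith)]
    have h5 := Phi_nonneg π h0 h1 c.f_nonneg c.f_le_one
    rw [← ENNReal.ofReal_one, ← ENNReal.ofReal_add h5 zero_le_one,
      ENNReal.ofReal_le_ofReal_iff (by
        have : 0 ≤ h' := ENNReal.toReal_nonneg
        linarith)] at h4
    linarith
  have hfinal : Hcnt I π ≤ ENNReal.ofReal h' := by
    apply ENNReal.le_of_forall_pos_le_add
    intro e he _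
    obtain ⟨c, hc⟩ := exists_comb π hI hne hinf (e := e) (by exact_mod_cast he)
    refine (Hcnt_le_comb π c).trans (hc.trans ?_)
    rw [ENNReal.ofReal_add ENNReal.toReal_nonneg (by positivity), ENNReal.ofReal_coe_nnreal]
  rw [hh', ENNReal.ofReal_toReal hfin] at hfinal
  exact hfinal

end Main

/-- **Main theorem.** For every probability space, every system `I` of measurable sets and every
`0 < lam < 1`: the compatible measure bound equals the bound by countable combinations, both are at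
most the lower covering entropy, and the upper covering entropy is never smaller than the
compatible measure bound. -/
theorem result (Ω : Type u) [MeasurableSpace Ω] (π : Measure Ω) [IsProbabilityMeasure π]
    (I : Set (Set Ω)) (hI : ∀ J ∈ I, MeasurableSet J) (lam : ℝ) (_h0 : 0 < lam) (h1 : lam < 1) :
    ¬ (upperH I π lam < (Hfull I π : EReal)) ∧ (Hfull I π : EReal) ≤ lowerH I π lam ∧
      Hfull I π = Hcnt I π := by
  have h2 : Hfull I π = Hcnt I π := le_antisymm (Hfull_le_Hcnt π I hI) (Hcnt_le_Hfull π I hI)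
  have h3 : (Hfull I π : EReal) ≤ lowerH I π lam := by
    rw [h2]
    exact Hcnt_le_lowerH π hI h1
  refine ⟨?_, h3, h2⟩
  have h4 : lowerH I π lam ≤ upperH I π lam := liminf_le_limsup
  exact not_lt.2 (h3.trans h4)

end Pool.Agent.Results.MP_87c4bd_co.EntropyEquality
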